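import Pool.Agent.H39.Aff3
import Pool.Agent.H39.FG5

namespace Pool.Agent.Results.MP_78c86a_lc.NoBorel

open Set Filter Topology TopologicalSpace MeasureTheory Pool.Agent.H39.FG

/-- every `m`-measurable set agrees almost everywhere with an `m'`-measurable set -/
def AeLe {X : Type} {m0 : MeasurableSpace X} (μ : Measure X) (m m' : MeasurableSpace X) : Prop :=
  ∀ s, @MeasurableSet X m s → ∃ t, @MeasurableSet X m' t ∧ s =ᵐ[μ] t

/-- equality of sigma-algebras modulo null sets -/
def AeSame {X : Type} {m0 : MeasurableSpace X} (μ : Measure X) (m m' : MeasurableSpace X) : Prop :=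
  AeLe μ m m' ∧ AeLe μ m' m

/-- The factor of `T` given by `m'` is an isometric extension of the factor given by `m`:
they are modelled by a homogeneous skew product `Y × M` and its base `Y`, where a compact
metrizable group `G` (written additively, not assumed commutative) acts continuously and
transitively on the compact metrizable space `M` with invariant probability measure `κ`. -/
def IsoExt {X : Type} {m0 : MeasurableSpace X} (μ : Measure X) (T : X → X)
    (m m' : MeasurableSpace X) : Prop :=
  ∃ (Y : Type) (mY : MeasurableSpace Y) (_ : StandardBorelSpace Y) (ν : Measure Y) (S : Aut ν)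
    (G : Type) (_ : AddGroup G) (_ : TopologicalSpace G) (_ : IsTopologicalAddGroup G)
    (_ : CompactSpace G) (_ : MetrizableSpace G) (_ : MeasurableSpace G) (_ : BorelSpace G)
    (M : Type) (_ : TopologicalSpace M) (_ : CompactSpace M) (_ : MetrizableSpace M)
    (mM : MeasurableSpace M) (_ : BorelSpace M) (_ : AddAction G M) (_ : ContinuousVAdd G M)
    (κ : Measure M) (ρ : Y → G) (φ : X → Y × M),
    IsProbabilityMeasure ν ∧ IsProbabilityMeasure κ ∧ AddAction.IsPretransitive G M ∧
      (∀ g : G, MeasurePreserving (fun z : M => g +ᵥ z) κ κ) ∧ Measurable ρ ∧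
      @MeasurePreserving X (Y × M) m0 (mY.prod mM) φ μ (ν.prod κ) ∧
      (∀ᵐ x ∂μ, φ (T x) = (S.1 (φ x).1, ρ (φ x).1 +ᵥ (φ x).2)) ∧
      AeSame μ m (mY.comap fun x => (φ x).1) ∧ AeSame μ m' ((mY.prod mM).comap φ)

/-- a transfinite tower of factors from the trivial one to the whole system, with isometric
extensions at successor steps and inverse limits at limit steps -/
def MDistal {X : Type} [m0 : MeasurableSpace X] (μ : Measure X) (T : X → X) : Prop :=
  ∃ (η : Ordinal.{0}) (m : Ordinal.{0} → MeasurableSpace X), (∀ a, m a ≤ m0) ∧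
    AeSame μ (m 0) ⊥ ∧ AeSame μ (m η) m0 ∧ (∀ a < η, IsoExt μ T (m a) (m (a + 1))) ∧
    ∀ a ≤ η, Order.IsSuccLimit a → AeSame μ (m a) (⨆ b < a, m b)

/-- the measure distal ergodic transformations -/
def MD {X : Type} [MeasurableSpace X] (μ : Measure X) : Set (ErgAut μ) :=
  {a | ∃ T : Aut μ, a.1 = ⟦T⟧ ∧ MDistal μ T.1}

open Pool.Agent.H39.Aff

theorem AeSame.of_eq {X : Type} {m0 : MeasurableSpace X} {μ : Measure X} {m m' : MeasurableSpace X}
    (h : m = m') : AeSame μ m m' :=
  h ▸ ⟨fun s hs => ⟨s, hs, .rfl⟩, fun s hs => ⟨s, hs, .rfl⟩⟩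

theorem comap_le {X Y Z : Type} {mY : MeasurableSpace Y} {mZ : MeasurableSpace Z} {f : X → Y}
    {g : X → Z} (h : Z → Y) (hh : Measurable h) (e : ∀ x, f x = h (g x)) :
    mY.comap f ≤ mZ.comap g := by
  rw [show f = h ∘ g from funext e, ← MeasurableSpace.comap_comp]
  exact MeasurableSpace.comap_mono hh.comap_le

section
variable {S : Type} [Countable S] {p : S → Option S} {d : S → ℕ}

noncomputable def autOf (h : Dp p d) (α : K S) : Aut (hm S) :=
  ⟨(h.homeo α).toEquiv, h.mp α,
    MeasurePreserving.symm (h.homeo α).toMeasurableEquiv (h.mp α)⟩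

def sub (p : S → Option S) (d : S → ℕ) (k : ℕ) (s : {s // d s < k}) : Option {s // d s < k} :=
  (p s).bind fun t => if h : d t < k then some ⟨t, h⟩ else none

omit [Countable S] in
theorem dp_sub (h : Dp p d) (k : ℕ) : Dp (sub p d k) (fun s => d s) := by
  intro s t hst
  obtain ⟨u, h1, h2⟩ := Option.bind_eq_some_iff.1 hst
  split_ifs at h2
  rw [← Option.some.inj h2]
  exact h _ _ h1

def rs (d : S → ℕ) (k : ℕ) (x : K S) : K {s // d s < k} := fun s => x s

theorem isoExt {X : Type} [MeasurableSpace X] {μ : Measure X} {T : X → X} (h : Dp p d) (α : K S)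
    {φ : X → K S} (hφ : MeasurePreserving φ μ (hm S)) (he : ∀ᵐ x ∂μ, φ (T x) = aff p α (φ x))
    (k : ℕ) : IsoExt μ T (MeasurableSpace.pi.comap fun x => rs d k (φ x))
      (MeasurableSpace.pi.comap fun x => rs d (k + 1) (φ x)) := by
  classical
  let π : K S →+ K {s // d s < k} × K {s // d s = k} :=
    { toFun := fun x => (rs d k x, fun s => x s), map_zero' := rfl, map_add' := fun _ _ => rfl }
  have hπ : MeasurePreserving π (hm S) ((hm _).prod (hm _)) := by
    have := Measure.prod.instIsAddHaarMeasure (hm {s // d s < k}) (hm {s // d s = k})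
    refine AddMonoidHom.measurePreserving ?_ (fun y => ?_) (by simp)
    · exact (continuous_pi fun s => continuous_apply _).prodMk
        (continuous_pi fun s => continuous_apply _)
    · refine ⟨fun s => if h1 : d s < k then y.1 ⟨s, h1⟩ else if h2 : d s = k then y.2 ⟨s, h2⟩ else 0,
        Prod.ext (funext fun s => dif_pos s.2) (funext fun s => ?_)⟩
      exact (dif_neg s.2.not_lt).trans (dif_pos s.2)
  refine ⟨K {s // d s < k}, inferInstance, inferInstance, hm _, autOf (dp_sub h k) (rs d k α),
    K {s // d s = k}, inferInstance, inferInstance, inferInstance, inferInstance, inferInstance,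
    inferInstance, inferInstance, K {s // d s = k}, inferInstance, inferInstance, inferInstance,
    inferInstance, inferInstance, inferInstance, inferInstance, hm _,
    fun y s => (p s).elim 0 (fun t => if h1 : d t < k then y ⟨t, h1⟩ else 0) + α s,
    fun x => π (φ x), inferInstance, inferInstance, inferInstance,
    fun g => measurePreserving_add_left _ g, ?_, hπ.comp hφ, ?_, .of_eq rfl, .of_eq ?_⟩
  · refine measurable_pi_lambda _ fun s => Measurable.add_const ?_ _
    cases p s with
    | none => exact measurable_const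
    | some t =>
      simp only [Option.elim]
      split_ifs
      · exact measurable_pi_apply _
      · exact measurable_const
  · filter_upwards [he] with x hx
    rw [hx]
    refine Prod.ext (funext fun s => ?_) (funext fun s => ?_)
    · change φ x s + (p s).elim 0 (φ x) + α s = φ x s + (sub p d k s).elim 0 (rs d k (φ x)) + α s
      unfold sub
      cases hp : p s with
      | none => rfl
      | some t => rw [Option.bind_some, dif_pos ((h _ _ hp).trans s.2)]; rfl
    · change φ x s + (p s).elim 0 (φ x) + α s =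
        (p s).elim 0 (fun t => if h1 : d t < k then φ x t else 0) + α s + φ x s
      cases hp : p s with
      | none => simp only [Option.elim]; abel
      | some t =>
        simp only [Option.elim]
        rw [dif_pos ((h _ _ hp).trans_eq s.2)]
        abel
  · apply le_antisymm
    · refine comap_le (fun y s => if h1 : d s < k then y.1 ⟨s, h1⟩ else
        y.2 ⟨s, by have := s.2; omega⟩) (measurable_pi_lambda _ fun s => ?_) fun x => funext fun s => ?_
      · split_ifs
        · exact (measurable_pi_apply _).comp measurable_fst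
        · exact (measurable_pi_apply _).comp measurable_snd
      · split_ifs <;> rfl
    · exact comap_le (fun y => (fun s => y ⟨s, s.2.trans (Nat.lt_succ_self k)⟩,
        fun s => y ⟨s, s.2.trans_lt (Nat.lt_succ_self k)⟩))
        ((measurable_pi_lambda _ fun s => measurable_pi_apply _).prodMk
          (measurable_pi_lambda _ fun s => measurable_pi_apply _)) fun _ => rfl

theorem mdistal {X : Type} [m0 : MeasurableSpace X] {μ : Measure X} {T : X → X} (h : Dp p d)
    (α : K S) {φ : X → K S} {ψ : K S → X} (hφ : AeIso μ (hm S) φ ψ)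
    (he : ∀ᵐ x ∂μ, φ (T x) = aff p α (φ x)) : MDistal μ T := by
  let c : ℕ → MeasurableSpace X := fun k => MeasurableSpace.pi.comap fun x => rs d k (φ x)
  have hc : Monotone c := fun j k hjk => comap_le (fun y s => y ⟨s, s.2.trans_le hjk⟩)
    (measurable_pi_lambda _ fun s => measurable_pi_apply _) fun _ => rfl
  have hc' : ∀ k, c k ≤ MeasurableSpace.pi.comap φ := fun k => comap_le (rs d k)
    (measurable_pi_lambda _ fun s => measurable_pi_apply _) fun _ => rfl
  let m : Ordinal.{0} → MeasurableSpace X := fun a => ⨆ (k : ℕ) (_ : (k : Ordinal.{0}) ≤ a), c k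
  have hm : ∀ k : ℕ, m k = c k := fun k => le_antisymm
    (iSup₂_le fun j hj => hc (by exact_mod_cast hj)) (le_iSup₂_of_le k le_rfl le_rfl)
  have hω : m Ordinal.omega0 = MeasurableSpace.pi.comap φ := by
    refine le_antisymm (iSup₂_le fun k _ => hc' k) ?_
    rw [MeasurableSpace.pi, MeasurableSpace.comap_iSup]
    refine iSup_le fun s => le_iSup₂_of_le (d s + 1) (Ordinal.natCast_lt_omega0 _).le ?_
    rw [MeasurableSpace.comap_comp]
    exact comap_le (fun y => y ⟨s, Nat.lt_succ_self _⟩) (measurable_pi_apply _) fun _ => rfl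
  refine ⟨Ordinal.omega0, m, fun a => iSup₂_le fun k _ => (hc' k).trans hφ.m1.measurable.comap_le,
    .of_eq ?_, ?_, fun a ha => ?_, fun a ha hl => .of_eq ?_⟩
  · rw [← Nat.cast_zero, hm]
    have : (fun x => rs d 0 (φ x)) = fun _ => 0 := funext fun _ => funext fun s => absurd s.2 (by simp)
    simp only [c, this, MeasurableSpace.comap_const]
  · rw [hω]
    refine ⟨fun s hs => ⟨s, hφ.m1.measurable.comap_le s hs, .rfl⟩, fun s hs =>
      ⟨φ ⁻¹' (ψ ⁻¹' s), ⟨_, hφ.m2.measurable hs, rfl⟩, ?_⟩⟩
    filter_upwards [hφ.e1] with x hx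
    change (x ∈ s) = (ψ (φ x) ∈ s)
    rw [hx]
  · obtain ⟨k, rfl⟩ := Ordinal.lt_omega0.1 ha
    rw [← Nat.cast_succ, hm, hm]
    exact isoExt h α hφ.m1 he k
  · obtain rfl := ha.antisymm (Ordinal.omega0_le_of_isSuccLimit hl)
    refine le_antisymm (iSup₂_le fun k _ => le_iSup₂_of_le (k : Ordinal.{0})
      (Ordinal.natCast_lt_omega0 _) (hm k).ge) (iSup₂_le fun b hb => iSup₂_le fun k hk => ?_)
    exact le_iSup₂_of_le k (hk.trans hb.le) le_rfl

end

theorem main {X : Type} [MeasurableSpace X] [StandardBorelSpace X] (μ : Measure X)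
    [IsProbabilityMeasure μ] [NullSingletonClass μ] :
    ¬ ∃ B : Set (ErgAut μ × ErgAut μ), @MeasurableSet _ (borel (ErgAut μ × ErgAut μ)) B ∧
      ∀ a ∈ MD μ, ∀ b ∈ MD μ, ((a, b) ∈ B ↔ ConjAut a.1 b.1) := by
  rintro ⟨B, hB, hB'⟩
  have : Nontrivial (K S0) := by
    obtain ⟨g, hg⟩ := exists_ne (γ := Finsupp.single (Sum.inr 0 : S0) 1) (by simp)
    exact ⟨g, 0, fun e => hg (by rw [e, ch_apply, pr_single]; simp)⟩
  have : (𝓝[≠] (0 : K S0)).NeBot := ConnectedSpace.neBot_nhdsWithin_compl_of_nontrivial_of_t1space _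
  obtain ⟨φ, ψ, h⟩ := iso_any μ (hm S0)
  choose L hL using h.lift
  obtain ⟨α, hα⟩ := exists_ind S0
  have t1 : ∀ R : Aut (hm S0), ∀ᵐ x ∂μ, φ ((L R).1.symm x) = R.1.symm (φ x) := fun R => by
    filter_upwards [(L R).2.2.quasiMeasurePreserving.ae (hL R)] with x hx
    rw [Equiv.eq_symm_apply, ← hx, Equiv.apply_symm_apply]
  have t2 : ∀ β, Continuous fun τ => L (autOf (dp_par τ) β) := fun β => by
    refine continuous_iInf_rng.2 fun A => continuous_induced_rng.2
      (continuous_iff_continuousAt.2 fun r => tendsto_iff_edist_tendsto_0.2 ?_)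
    let g : C((List ℕ → Bool) × K S0, K S0) := ⟨_, cont_inv β⟩
    have hA := h.m2.measurable A.2
    refine (tendsto_measure_symmDiff_preimage_nhds_zero (g.curry.continuous.tendsto r)
      (Eventually.of_forall fun r => (autOf (dp_par r) β).2.2) (autOf (dp_par r) β).2.2
      hA.nullMeasurableSet (measure_ne_top _ _)).congr fun r' => ?_
    rw [← h.m1.measure_preimage (((g.curry r').continuous.measurable hA).symmDiff
      ((g.curry r).continuous.measurable hA)).nullMeasurableSet, preimage_symmDiff]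
    change _ = μ (symmDiff ((L (autOf (dp_par r') β)).1 '' A.1) ((L (autOf (dp_par r) β)).1 '' A.1))
    rw [Equiv.image_eq_preimage_symm, Equiv.image_eq_preimage_symm]
    exact (measure_congr ((h.pre (L _).2.2 (t1 (autOf (dp_par r') β)) A.1).symmDiff
      (h.pre (L _).2.2 (t1 (autOf (dp_par r) β)) A.1))).symm
  let Θ : ∀ β, Ind β → (List ℕ → Bool) → ErgAut μ := fun β hβ τ =>
    ⟨⟦L (autOf (dp_par τ) β)⟧, _, rfl, h.ergodic (L _).2.1 (hL _) ((dp_par τ).ergodic hβ)⟩
  have t3 : ∀ β hβ, Continuous (Θ β hβ) := fun β hβ =>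
    (continuous_quotient_mk'.comp (t2 β)).subtype_mk _
  have t4 : ∀ β hβ τ, Θ β hβ τ ∈ MD μ := fun β hβ τ => ⟨_, rfl, mdistal (dp_par τ) β h (hL _)⟩
  have h1 := ((t3 α hα).prodMk (t3 _ hα.alt)).borel_measurable hB
  rw [← BorelSpace.measurable_eq (α := List ℕ → Bool)] at h1
  refine not_meas_IF' (Eq.mp (congrArg _ (Set.ext fun τ => ?_)) h1)
  refine (hB' _ (t4 α hα τ) _ (t4 _ hα.alt τ)).trans ⟨?_, fun hτ => ?_⟩
  · rintro ⟨T, U, h2, h3⟩
    refine branch_of_conj hα (h := fun y => φ (U.1.symm (ψ y)))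
      ((h.m1.comp (U.2.2.comp h.m2)).measurable) ?_
    filter_upwards [h.e2, h.m2.quasiMeasurePreserving.ae (hL (autOf (dp_par τ) α)),
      ((L (autOf (dp_par τ) α)).2.1.comp h.m2).quasiMeasurePreserving.ae h.e1,
      h.m2.quasiMeasurePreserving.ae (Quotient.exact h2),
      (U.2.2.comp h.m2).quasiMeasurePreserving.ae (Quotient.exact h3),
      (U.2.2.comp h.m2).quasiMeasurePreserving.ae (hL (autOf (dp_par τ) (alt α)))]
      with y a1 a2 a3 a4 a5 a6
    simp only [Function.comp] at a3 a5 a6
    rw [a1] at a2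
    rw [show aff (par τ) α y = _ from a2.symm, a3, a4]
    rw [a5] at a6
    refine Eq.trans ?_ a6
    simp
  · obtain ⟨q, d, β, h2, h3⟩ := conj_of_branch hτ α
    refine ⟨L (autOf (dp_par τ) (alt α)), (L (autOf h2 β))⁻¹, Quotient.sound ?_, rfl⟩
    filter_upwards [hL (autOf (dp_par τ) α), hL (autOf h2 β),
      (L (autOf (dp_par τ) α)).2.1.quasiMeasurePreserving.ae (hL (autOf h2 β)),
      (L (autOf h2 β)).2.1.quasiMeasurePreserving.ae (hL (autOf (dp_par τ) (alt α))),
      ((L (autOf h2 β)).2.1.comp (L (autOf (dp_par τ) α)).2.1).quasiMeasurePreserving.ae h.e1,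
      ((L (autOf (dp_par τ) (alt α))).2.1.comp (L (autOf h2 β)).2.1).quasiMeasurePreserving.ae h.e1]
      with x a1 a2 a3 a4 a5 a6
    simp only [Function.comp] at a5 a6
    rw [a3, a1] at a5
    rw [a4, a2] at a6
    have a7 : (L (autOf h2 β)).1 ((L (autOf (dp_par τ) α)).1 x) =
        (L (autOf (dp_par τ) (alt α))).1 ((L (autOf h2 β)).1 x) :=
      a5.symm.trans ((congrArg ψ (h3 _)).trans a6)
    simp [← a7]

theorem result :
    ¬ ∃ B : Set (ErgAut (volume : Measure unitInterval) × ErgAut (volume : Measure unitInterval)),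
      @MeasurableSet _ (borel _) B ∧
      ∀ a ∈ MD (volume : Measure unitInterval), ∀ b ∈ MD (volume : Measure unitInterval),
        ((a, b) ∈ B ↔ ConjAut a.1 b.1) :=
  main volume

end Pool.Agent.Results.MP_78c86a_lc.NoBorel
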